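import Pool.Agent.W323.PT.Stm

/-! Project PT: the final step. -/

set_option autoImplicit false

namespace Pool.Agent.W45.PT

open Pool.Agent.W323.PT

theorem fin : S_Red → S_Main → S_Fin := by
  rintro hR ⟨δ, hδ, hM⟩
  obtain ⟨k, -, hk⟩ := hR δ hδ
  refine ⟨k, fun F hF hL => ?_⟩
  rcases F.eq_empty_or_nonempty with h | h
  · subst h
    exact ⟨∅, by simp, fun K hK => absurd hK (Finset.notMem_empty K)⟩
  · obtain ⟨F', hF', hsub, ι, _, w, P, hw0, hw1, hm⟩ := hk F h hF hL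
    obtain ⟨S, hS, hS'⟩ := hM ι w P F' hw0 hw1 hF' hm
    refine ⟨S, hS, fun K hK => ?_⟩
    obtain ⟨K', hK', hKK⟩ := hsub K hK
    obtain ⟨p, hp, hpK⟩ := hS' K' hK'
    exact ⟨p, hp, hKK hpK⟩

end Pool.Agent.W45.PT
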